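import Pool.Agent.Helper73.DC.St2

set_option autoImplicit false

/-! Module L2 of project DC (MP_26f0da_lc): predicates and case distinction. -/

namespace Pool.Agent.Helper64.DC

open Pool.Agent.Helper73.DC
open Finset
open scoped Classical

theorem E2.congr {α : Type} [Fintype α] {F G : VF α} (hF : E2 F) (h : ∀ w v, G w v = F w v) :
    E2 G := by
  have : G = F := by
    funext w v
    exact h w v
  rw [this]
  exact hF

/-- Module L2. -/
theorem mL2 : StL1 → StL2 := by
  intro h1 α _
  have hone : E2 (α := α) (fun _ _ => 1) := E2.const 1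
  have hle : ∀ F G : VF α, E2 F → E2 G → E2P (fun w v => F w v ≤ G w v) := by
    intro F G hF hG
    have h2 := (h1 F G hF hG).1
    have h3 := (h1 _ _ hone h2).1
    refine E2.congr h3 ?_
    intro w v
    simp only
    split_ifs with h
    · omega
    · omega
  have hnot : ∀ p : List α → (ℕ → ℕ) → Prop, E2P p → E2P (fun w v => ¬ p w v) := by
    intro p hp
    have h3 := (h1 _ _ hone hp).1
    refine E2.congr h3 ?_
    intro w v
    simp only
    by_cases h : p w v
    · simp [h]
    · simp [h]
  have hand : ∀ p q : List α → (ℕ → ℕ) → Prop, E2P p → E2P q → E2P (fun w v => p w v ∧ q w v) := by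
    intro p q hp hq
    have h3 := E2.mul hp hq
    refine E2.congr h3 ?_
    intro w v
    simp only
    by_cases h : p w v <;> by_cases h' : q w v <;> simp [h, h']
  refine ⟨?_, ?_, ?_⟩
  · intro F G hF hG
    refine ⟨hle F G hF hG, ?_, ?_⟩
    · refine E2.congr (hnot _ (hle G F hG hF)) ?_
      intro w v
      simp only
      by_cases h : F w v < G w v
      · simp [h]
      · simp [h, not_lt.mp h]
    · refine E2.congr (hand _ _ (hle F G hF hG) (hle G F hG hF)) ?_
      intro w v
      simp only
      by_cases h : F w v = G w v
      · simp [h]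
      · have : ¬ (F w v ≤ G w v ∧ G w v ≤ F w v) := by
          intro hh
          exact h (le_antisymm hh.1 hh.2)
        simp [h, this]
  · intro p q hp hq
    refine ⟨hnot p hp, hand p q hp hq, ?_⟩
    refine E2.congr (hnot _ (hand _ _ (hnot p hp) (hnot q hq))) ?_
    intro w v
    simp only
    by_cases h : p w v <;> by_cases h' : q w v <;> simp [h, h']
  · intro p F G hp hF hG
    refine E2.congr (E2.add (E2.mul hp hF) (E2.mul (hnot p hp) hG)) ?_
    intro w v
    simp only
    by_cases h : p w v <;> simp [h]

end Pool.Agent.Helper64.DC
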