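import Pool.Agent.Helper64.DC.M_L2

set_option autoImplicit false

/-! Module L6 of project DC (MP_26f0da_lc): finite tables. -/

namespace Pool.Agent.Helper64.DC

open Pool.Agent.Helper73.DC
open Finset
open scoped Classical

/-- Module L6. -/
theorem mL6 : StL1 → StL2 → StL6 := by
  intro h1 h2 α _ F G m t t' hF hG
  obtain ⟨hcmp, hlog, hite⟩ := h2 (α := α)
  have heq : ∀ (H : VF α) (i : ℕ), E2 H → E2P (fun w v => H w v = i) := by
    intro H i hH
    exact (hcmp H (fun _ _ => i) hH (E2.const i)).2.2
  constructor
  · have h3 : E2 (α := α) (fun w v => ∑ i ∈ range m, if F w v = i then t i else 0) := by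
      refine E2.fsum (range m) (fun i w v => if F w v = i then t i else 0) ?_
      intro i _
      refine E2.congr (hite (fun w v => F w v = i) (fun _ _ => t i) (fun _ _ => 0) (heq F i hF)
        (E2.const _) (E2.const _)) ?_
      intro w v
      by_cases h : F w v = i
      · rw [if_pos h, if_pos h]
      · rw [if_neg h, if_neg h]
    refine E2.congr h3 ?_
    intro w v
    rw [Finset.sum_ite_eq]
    simp only [mem_range]
  · have h3 : E2 (α := α) (fun w v => ∑ x ∈ range m ×ˢ range m,
        if F w v = x.1 ∧ G w v = x.2 then t' x.1 x.2 else 0) := by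
      refine E2.fsum (range m ×ˢ range m)
        (fun x w v => if F w v = x.1 ∧ G w v = x.2 then t' x.1 x.2 else 0) ?_
      intro x _
      refine E2.congr (hite (fun w v => F w v = x.1 ∧ G w v = x.2) (fun _ _ => t' x.1 x.2)
        (fun _ _ => 0) ((hlog _ _ (heq F x.1 hF) (heq G x.2 hG)).2.1) (E2.const _)
        (E2.const _)) ?_
      intro w v
      by_cases h : F w v = x.1 ∧ G w v = x.2
      · rw [if_pos h, if_pos h]
      · rw [if_neg h, if_neg h]
    refine E2.congr h3 ?_
    intro w v
    split_ifs with h
    · rw [Finset.sum_eq_single (F w v, G w v)]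
      · simp
      · rintro ⟨a, b⟩ _ hne
        rw [if_neg]
        rintro ⟨ha, hb⟩
        exact hne (by simp only at ha hb; rw [ha, hb])
      · intro hne
        exact absurd (by simp [h.1, h.2]) hne
    · symm
      refine Finset.sum_eq_zero ?_
      rintro ⟨a, b⟩ hab
      rw [if_neg]
      rintro ⟨ha, hb⟩
      simp only [mem_product, mem_range] at hab
      simp only at ha hb
      rw [ha, hb] at h
      exact h hab

end Pool.Agent.Helper64.DC
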