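import Pool.Agent.Helper73.DC.St2

set_option autoImplicit false

/-! Module L7 of project DC (MP_26f0da_lc): specification of the bounded search. -/

namespace Pool.Agent.Helper64.DC

open Pool.Agent.Helper73.DC
open Finset
open scoped Classical

theorem bmin_of {b i0 : ℕ} {p : ℕ → Prop} (hi : i0 ≤ b) (hlt : i0 < b → p i0)
    (hmin : ∀ i < i0, ¬ p i) : bmin b p = i0 := by
  unfold bmin
  rw [← Finset.card_filter]
  have : (range b).filter (fun j => ∀ i < j + 1, ¬ p i) = range i0 := by
    ext j
    simp only [mem_filter, mem_range]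
    constructor
    · rintro ⟨hj, hall⟩
      by_contra hge
      push Not at hge
      exact hall i0 (by omega) (hlt (by omega))
    · intro hj
      refine ⟨by omega, ?_⟩
      intro i hi'
      exact hmin i (by omega)
  rw [this, card_range]

/-- Module L7. -/
theorem mL7 : StL7 := by
  intro b p
  have hA : ∀ i0 < b, p i0 → (∀ i < i0, ¬ p i) → bmin b p = i0 :=
    fun i0 hi hp hmin => bmin_of hi.le (fun _ => hp) hmin
  have hB : (∀ i < b, ¬ p i) → bmin b p = b :=
    fun h => bmin_of le_rfl (fun h' => absurd h' (lt_irrefl _)) h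
  have hC : (∃ i < b, p i) → bmin b p < b ∧ p (bmin b p) ∧ ∀ i < bmin b p, ¬ p i := by
    rintro ⟨i, hi, hp⟩
    have hex : ∃ i, p i := ⟨i, hp⟩
    have hle : Nat.find hex ≤ i := Nat.find_min' hex hp
    have hval : bmin b p = Nat.find hex :=
      hA (Nat.find hex) (by omega) (Nat.find_spec hex) (fun j hj => Nat.find_min hex hj)
    rw [hval]
    exact ⟨by omega, Nat.find_spec hex, fun j hj => Nat.find_min hex hj⟩
  refine ⟨hA, hB, hC, ?_⟩
  by_cases h : ∃ i < b, p i
  · exact (hC h).1.le
  · push Not at h
    exact (hB h).le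

end Pool.Agent.Helper64.DC
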